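import Pool.Agent.H20.TP.Srf

/-!
# [H89 RT Avd] THEOREM R (MP_e49dc9_ag): sections of a fixed power of an ample divisor through `y` which avoid finitely many points

`y` a point of the closed subvariety `z`, not `z` itself.  There is `m ≥ 1` such that for every finite set `F` of points `x` of `z` which are not in the
closure of `y` there is a section of `A ^ m` on `z` which vanishes at `y` and at no point of `F`.
PROOF.  On `V = subM hX z` with `H = resD hX z A` (`Noe H`: the ascending chain condition for homogeneous ideals, from `serP` as in H41/ZP/Stp.lean).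
(1) If `¬ y ⤳ x` there are `n ≥ 1` and `b ∈ (van H y).J n` with `x ∈ nz H n b`: `H` is ample: `x ∈ nz H n s`, affine; if `y ∉ nz` take `s`; otherwise
take `f` in the coordinate ring of `nz H n s`, zero at `y` and not at `x` (`sp_of` or `isVar`: primes and specialization, compare `fin_aff` in H20/TP/Supp.lean),
and `f s^N` is a section of `H^(n N)` for `N` large (there are lemmas for this in H24/TK, H32/TK, H39/TK/Base; `van` there).
(2) By `Noe H` the homogeneous ideal `van H y` is generated by finitely many homogeneous elements `b_i`, `i < N`, of degrees `d_i` (a maximal finitely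
generated homogeneous ideal in it; it is enough: every element of `(van H y).J n` is a sum of products `a_i b_i`, `a_i ∈ secL H (n - d_i)`).  Elements of
degree `0` may be multiplied by sections of `H^j` without common zero.  So for every `x` with `¬ y ⤳ x` some `b_i` is nonzero at `x` (`d_i ≥ 1`).
(3) `m = ∏ d_i`, `g_i = b_i ^ (m / d_i)`: sections of `H^m`, zero at `y`, for every `x` with `¬ y ⤳ x` some `g_i` is nonzero at `x`.
(4) `F` finite (add `z` to it: `¬ y ⤳ z`): for `x ∈ F` the polynomial `∑ g_i(x) λ^i` over the residue field of `x` is nonzero, so it has finitely many zeros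
`λ ∈ k`; `k` is infinite: take `λ` which is a zero for no `x ∈ F` and `g = ∑ λ^i g_i`.
-/

set_option autoImplicit false

namespace Pool.Agent.H89.RT

open Pool.Agent.H54.RV Pool.Agent.H83.TU Pool.Agent.H83.TK Pool.Agent.H20.TD Pool.Agent.H20.TP

variable {k K : Type} [Field k] [Field K] [Algebra k K] {X : Mod k K}

open Pool.Agent.H39.TK

/-- (1) -/
private theorem ex_van (hX : IsVar X) {H : Cart X} (hH : Ample H) {y x : X.P} (h : ¬ y ⤳ x) :
    ∃ n : ℕ, 1 ≤ n ∧ ∃ b : K, b ∈ (van H y).J n ∧ x ∈ nz H n b := by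
  obtain ⟨n, hn, s, hs, hx, hV⟩ := hH x
  by_cases hy : y ∈ nz H n s
  · rw [specializes_iff_forall_open] at h
    push Not at h
    obtain ⟨W, hW, hxW, hyW⟩ := h
    obtain ⟨a, ha, hax, hay⟩ := hX.bas (nz H n s) W x hV hW hx hxW
    obtain ⟨N, hN⟩ := ext_sec hX H 1 n s a hs fun w hw => by
      rw [one_eq, mul_one]
      exact ha w hw
    have e : ∀ w : X.P, s ^ (N + 1) * a * H.eq w ^ (n * (N + 1)) =
        (s * H.eq w ^ n) ^ (N + 1) * a := fun w => by
      rw [mul_pow, ← pow_mul]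
      ring
    refine ⟨n * (N + 1), Nat.mul_pos hn N.succ_pos, s ^ (N + 1) * a, ⟨fun w => ?_, fun hu => ?_⟩, ?_⟩
    · have h1 := hN (N + 1) (Nat.le_succ N) w
      rw [one_eq, mul_one, ← pow_mul] at h1
      exact h1
    · rw [e] at hu
      have h1 : a ∈ X.O y := ha y hy
      have h2 : (s * H.eq y ^ n) ^ (N + 1) ∈ X.O y := (X.O y).pow_mem (hs y) _
      exact hyW (hay y hy ((un_mul_iff h2 h1).1 hu).2)
    · show Un (X.O x) (s ^ (N + 1) * a * H.eq x ^ (n * (N + 1)))
      rw [e]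
      exact un_mul (un_pow hx _) hax
  · exact ⟨n, hn, s, ⟨hs, hy⟩, hx⟩

/-- the zero ideal -/
private def bt (H : Cart X) : HI H where
  J _ := ⊥
  le _ := bot_le
  mul m n a b _ hb := by
    rw [Submodule.mem_bot] at hb ⊢
    rw [hb, mul_zero]

/-- (2) -/
private theorem ex_fin {H : Cart X} (hX : IsVar X) (hH : Ample H) (hN : Noe H) (y : X.P) :
    ∃ T : Finset (ℕ × K), (∀ p ∈ T, 1 ≤ p.1 ∧ p.2 ∈ (van H y).J p.1) ∧
      ∀ x, ¬ y ⤳ x → ∃ p ∈ T, x ∈ nz H p.1 p.2 := by
  classical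
  let P : HI H → Prop := fun I => ∃ T : Finset (ℕ × K),
    (∀ p ∈ T, 1 ≤ p.1 ∧ p.2 ∈ (van H y).J p.1) ∧
      ∀ x, (∀ p ∈ T, x ∉ nz H p.1 p.2) → ∀ m, ∀ c ∈ I.J m, x ∉ nz H m c
  have h0 : P (bt H) := by
    refine ⟨∅, fun p hp => absurd hp (Finset.notMem_empty p), fun x _ m c hc hx => ?_⟩
    have hc' : c = 0 := (Submodule.mem_bot k).1 hc
    have h1 : Un (X.O x) (c * H.eq x ^ m) := hx
    rw [hc', zero_mul] at h1
    exact h1.1 rfl
  have hwf : WellFoundedGT (HI H) := hN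
  obtain ⟨I, hI, hmax⟩ := (wellFounded_gt (α := HI H)).has_min {I | P I} ⟨_, h0⟩
  obtain ⟨T, hT, hT2⟩ := hI
  refine ⟨T, hT, fun x hx => ?_⟩
  by_contra hcon
  push Not at hcon
  obtain ⟨n, hn, b, hb, hbx⟩ := ex_van hX hH hx
  have hbs : b ∈ secL H n := (van H y).le n hb
  have h1 : P (ad I b n hbs) := by
    refine ⟨insert (n, b) T, fun p hp => ?_, fun w hw m c hc hcw => ?_⟩
    · rcases Finset.mem_insert.1 hp with rfl | hp
      · exact ⟨hn, hb⟩
      · exact hT p hp
    · obtain ⟨j, hj, d, hd, rfl⟩ := hc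
      have h2 : w ∉ nz H m j := hT2 w (fun p hp => hw p (Finset.mem_insert_of_mem hp)) m j hj
      have h3 : w ∉ nz H n b := hw (n, b) (Finset.mem_insert_self _ _)
      have h4 : Un (X.O w) ((j + d * b) * H.eq w ^ m) := hcw
      have hj' : j * H.eq w ^ m ∈ X.O w := (I.le m hj) w
      rcases hd with ⟨hnm, hd⟩ | rfl
      · have e1 : (j + d * b) * H.eq w ^ m =
            j * H.eq w ^ m + (d * H.eq w ^ (m - n)) * (b * H.eq w ^ n) := by
          have e2 : H.eq w ^ m = H.eq w ^ (m - n) * H.eq w ^ n := by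
            rw [← pow_add, Nat.sub_add_cancel hnm]
          rw [add_mul]
          congr 1
          rw [e2]
          ring
        rw [e1] at h4
        rcases un_add hj' ((X.O w).mul_mem (hd w) (hbs w)) h4 with h5 | h5
        · exact h2 h5
        · exact h3 ((un_mul_iff (hd w) (hbs w)).1 h5).2
      · rw [zero_mul, add_zero] at h4
        exact h2 h4
  have h2 : ¬ (ad I b n hbs > I) := hmax _ h1
  have h3 : I ≤ ad I b n hbs := fun m j hj => ⟨j, hj, 0, Or.inr rfl, by rw [zero_mul, add_zero]⟩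
  have h4 : ad I b n hbs ≤ I := by
    by_contra h5
    exact h2 (lt_of_le_not_ge h3 h5)
  have h6 : b ∈ (ad I b n hbs).J n :=
    ⟨0, (I.J n).zero_mem, 1, Or.inl ⟨le_rfl, by
      rw [Nat.sub_self]
      exact one_sec H⟩, by rw [zero_add, one_mul]⟩
  exact hT2 x hcon n b (h4 n h6) hbx

/-- (3), (4) -/
private theorem ex_avd [Infinite k] {H : Cart X} (hX : IsVar X) (hH : Ample H) (hN : Noe H) (y : X.P) :
    ∃ m : ℕ, 1 ≤ m ∧ ∀ F : Set X.P, F.Finite → (∀ x ∈ F, ¬ y ⤳ x) →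
      ∃ s : K, s ∈ (van H y).J m ∧ ∀ x ∈ F, x ∈ nz H m s := by
  classical
  obtain ⟨T, hT, hT2⟩ := ex_fin hX hH hN y
  obtain ⟨m, hm⟩ : ∃ m : ℕ, m = ∏ p ∈ T, p.1 := ⟨_, rfl⟩
  have hm1 : 1 ≤ m := by
    rw [hm]
    exact Finset.prod_pos (f := fun p : ℕ × K => p.1) fun p hp => (hT p hp).1
  refine ⟨m, hm1, fun F hF hy => ?_⟩
  obtain ⟨s, hs, hs2⟩ := Pool.Agent.H36.TU.avoid ((van H y).J m) hF.toFinset (fun x => H.eq x ^ m)
    (fun x _ s hs => hs.1 x) fun x hx => by
      obtain ⟨p, hp, hpx⟩ := hT2 x (hy x (hF.mem_toFinset.1 hx))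
      obtain ⟨h1, h2⟩ := hT p hp
      obtain ⟨q, hq⟩ : p.1 ∣ m := hm ▸ Finset.dvd_prod_of_mem (fun p : ℕ × K => p.1) hp
      have hq1 : 1 ≤ q := by
        rcases Nat.eq_zero_or_pos q with h3 | h3
        · rw [h3, mul_zero] at hq
          omega
        · exact h3
      have e : ∀ w : X.P, p.2 ^ q * H.eq w ^ m = (p.2 * H.eq w ^ p.1) ^ q := fun w => by
        rw [mul_pow, ← pow_mul, hq]
      refine ⟨p.2 ^ q, ⟨fun w => ?_, fun hu => ?_⟩, ?_⟩
      · rw [e]
        exact (X.O w).pow_mem (h2.1 w) q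
      · rw [e] at hu
        exact h2.2 ((un_pow_iff (h2.1 y) hq1).1 hu)
      · show Un (X.O x) (p.2 ^ q * H.eq x ^ m)
        rw [e]
        exact un_pow hpx q
  exact ⟨s, hs, fun x hx => hs2 x (hF.mem_toFinset.2 hx)⟩

theorem avd [CharZero k] [IsAlgClosed k] [T0Space X.P] (h : Hyp X) {z y : X.P} (hzy : z ⤳ y) (hyz : ¬ y ⤳ z) {A : Cart X}
    (hA : Ample A) : ∃ m : ℕ, 1 ≤ m ∧ ∀ F : Set X.P, F.Finite → (∀ x ∈ F, z ⤳ x ∧ ¬ y ⤳ x) →
      ∃ Z, HasS h.var z (A ^ m) Z ∧ y ∈ Z ∧ ∀ x ∈ F, x ∉ Z := by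
  classical
  have : Infinite k := IsAlgClosed.instInfinite
  have hV : IsVar (subM h.var z) := isVar_sub h.var z
  have hH : Ample (resD h.var z A) := res_ample h.var z A hA
  have hN : Noe (resD h.var z A) := noe_amp hV ⟨_, gen_sub h.var z⟩ hH
  obtain ⟨m, hm, hF⟩ := ex_avd hV hH hN ⟨y, hzy⟩
  refine ⟨m, hm, fun F hfin hx => ?_⟩
  have hfin' : (insert (subG h.var z) {w : (subM h.var z).P | w.1 ∈ F}).Finite :=
    (hfin.preimage Subtype.val_injective.injOn).insert _
  obtain ⟨s, hs, hs2⟩ := hF _ hfin' (by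
    rintro w (rfl | hw)
    · rw [subM_spec]
      exact hyz
    · rw [subM_spec]
      exact (hx w.1 hw).2)
  have hs0 : s ≠ 0 := by
    have h1 : Un ((subM h.var z).O (subG h.var z)) (s * (resD h.var z A).eq (subG h.var z) ^ m) :=
      hs2 _ (Set.mem_insert _ _)
    exact left_ne_zero_of_mul h1.1
  have e : resD h.var z (A ^ m) = resD h.var z A ^ m := map_pow _ _ _
  have e2 : ∀ w : (subM h.var z).P, (resD h.var z (A ^ m)).eq w = (resD h.var z A).eq w ^ m := fun w => by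
    rw [e, pow_eq]
  refine ⟨Zst h.var z (A ^ m) s, ⟨s, hs0, ?_, rfl⟩, ⟨hzy, ?_⟩, ?_⟩
  · rw [e]
    exact (sec_iff_pow _ m s).1 hs.1
  · rw [e2]
    exact hs.2
  · rintro x hxF ⟨hzx, hu⟩
    refine hu ?_
    rw [e2]
    exact hs2 ⟨x, hzx⟩ (Set.mem_insert_of_mem _ hxF)

end Pool.Agent.H89.RT
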