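import Pool.Agent.H89.RT.Dcy
import Pool.Agent.H89.RT.Avd

/-!
# [H89 RT Mub] THEOREM R (MP_e49dc9_ag): the degree on a fixed curve of the divisors with sections on a surface

`mub`: `y` a curve on the surface `z`.  There is `m` with `deg_y W ≤ m T(A,W,S)` for ALL `W` with sections on `z`.
-/

set_option autoImplicit false

namespace Pool.Agent.H89.RT

open Pool.Agent.H54.RV Pool.Agent.H83.TU Pool.Agent.H83.TK Pool.Agent.H20.TD Pool.Agent.H20.TP
open Pool.Agent.H24.VP (RR chS)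

variable {k K : Type} [Field k] [Field K] [Algebra k K] {X : Mod k K}
  {T : Cart X → Cart X → Cart X → ℝ} {l : Cart X → ℝ} {c : ℝ} {z y : X.P} {S A : Cart X}

theorem eq_of_sp [T0Space X.P] (hX : IsVar X) {a b : X.P} (h : a ⤳ b)
    (ht : Algebra.trdeg k (X.kap a) = Algebra.trdeg k (X.kap b)) : a = b := by
  by_contra hne
  have h1 : ¬ b ⤳ a := fun h2 => hne (h.antisymm h2).eq
  exact absurd ht (trdeg_lt hX h h1).ne'

theorem t_eff_nn [CharZero k] [IsAlgClosed k] (h : Hyp X) (hr : RR T l c)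
    (htr : Algebra.trdeg k (X.kap z) = 2) (hS : SPr X z S) (hA : Ample A) {W : Cart X} (hW : 0 < hz h.var z W) :
    0 ≤ T A W S := by
  obtain ⟨Z, hZ⟩ := hasS_of_pos h.var hW
  obtain ⟨m, x, hx, hT⟩ := Pool.Agent.H39.TZ.T_dec h hr htr hS hZ
  rw [hT]
  refine Finset.sum_nonneg fun i _ => ?_
  have h1 := dz_pos h.var h.amp (hx i).2 (res_ample h.var (x i) A hA)
  exact_mod_cast h1.le

theorem mub [CharZero k] [IsAlgClosed k] [T0Space X.P] (h : Hyp X) (hr : RR T l c)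
    (htr : Algebra.trdeg k (X.kap z) = 2) (hS : SPr X z S) (hA : Ample A) (hy : Cv z y) :
    ∃ m : ℕ, 1 ≤ m ∧ ∀ W : Cart X, 0 < hz h.var z W → (dz h.var y W : ℝ) ≤ m * T A W S := by
  have hyz : ¬ y ⤳ z := by
    intro h1
    have h2 : y = z := (h1.antisymm hy.1).eq
    have h3 := hy.2
    rw [h2, htr] at h3
    exact absurd h3 (by norm_num)
  obtain ⟨m, hm, hav⟩ := avd h hy.1 hyz hA
  refine ⟨m, hm, fun W hW => ?_⟩
  have hnn := t_eff_nn h hr htr hS hA hW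
  rcases lt_or_ge (dz h.var y W) 0 with hneg | hpos
  · have h1 : (dz h.var y W : ℝ) < 0 := by exact_mod_cast hneg
    have h2 : (0 : ℝ) ≤ m * T A W S := mul_nonneg (Nat.cast_nonneg m) hnn
    linarith
  obtain ⟨ZW, hZW⟩ := hasS_of_pos h.var hW
  have hfin := zst_fin h.var (n := 1) (by rw [htr]; norm_num) hZW
  obtain ⟨Z, hZ, hyZ, hF⟩ := hav ({x : X.P | x ∈ ZW ∧ Algebra.trdeg k (X.kap x) = ((1 : ℕ) : Cardinal)} \ {y})
    (hfin.subset Set.sdiff_subset) (fun x hx => ⟨(hasS_lt h.var hZW hx.1.1).1, fun h1 => hx.2 (by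
      rw [Set.mem_singleton_iff]
      refine (eq_of_sp h.var h1 ?_).symm
      rw [hy.2, hx.1.2, Nat.cast_one])⟩)
  obtain ⟨n, x, hx, hT⟩ := T_decy h hr htr hS hZ hyZ hy.2
  have e : (m : ℝ) * T A W S = T W (A ^ m) S := by
    rw [hr.tri.pow2, hr.tri.s12]
  rw [e, hT W]
  have h3 : ∀ i, (0 : ℝ) ≤ dz h.var (x i) W := by
    intro i
    by_cases hiy : x i = y
    · rw [hiy]
      exact_mod_cast hpos
    · have h4 : x i ∉ ZW := fun h5 => hF (x i) ⟨⟨h5, by rw [(hx i).2, Nat.cast_one]⟩, hiy⟩ (hx i).1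
      have h6 := dz_out h.var hA hZW ⟨(hasS_lt h.var hZ (hx i).1).1, (hx i).2⟩ h4
      exact_mod_cast h6
  have h5 := Finset.sum_nonneg fun i (_ : i ∈ Finset.univ) => h3 i
  linarith

end Pool.Agent.H89.RT
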