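import Pool.Agent.H89.RT.Tz
import Pool.Agent.H89.RT.Mub
import Pool.Agent.H20.TP.Near
import Pool.Agent.H24.ZL.Num

/-!
# [H89 RT Hc] THEOREM R (MP_e49dc9_ag): the index theorem on a prime divisor for real classes

`hc`: `v` a real class with `T(v,A,S) = 0 = T(v,v,S)`: then `v` has degree `0` on all curves on `S`.
PROOF. `u = v + s A`, `s > 0`: `T(u,u,S) = s² T(A,A,S) > 0`, so the integral classes `W` near `t u` have sections on `S` for `t` large (`tz`), and
`deg_y W ≤ m T(A,W,S)` (`mub`): `deg_y v + s deg_y A ≤ m s T(A,A,S)`; `s → 0`: `deg_y v ≤ 0`; also for `- v`.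
-/

set_option autoImplicit false

namespace Pool.Agent.H89.RT

open Pool.Agent.H54.RV Pool.Agent.H83.TU Pool.Agent.H83.TK Pool.Agent.H20.TD Pool.Agent.H20.TP
open Pool.Agent.H24.VP (RR chS)

variable {k K : Type} [Field k] [Field K] [Algebra k K] {X : Mod k K} {r : ℕ}
  {ν : Cart X →* Multiplicative (Fin r → ℤ)} {T : Cart X → Cart X → Cart X → ℝ} {l : Cart X → ℝ} {c : ℝ} {TR : Tri3 r}
  {z y : X.P} {S A : Cart X}

theorem tr_sym (hr : RR T l c) (hν : NumR ν)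
    (hT : ∀ U V W, TR (cR ν U) (cR ν V) (cR ν W) = T U V W) (u v w : Fin r → ℝ) : TR u v w = TR v u w := by
  have h1 : TR = TR.flip := by
    refine ext_uniq hν fun U => ext_uniq hν fun V => ext_uniq hν fun W => ?_
    rw [LinearMap.flip_apply]
    show TR (cR ν U) (cR ν V) (cR ν W) = TR (cR ν V) (cR ν U) (cR ν W)
    rw [hT, hT, hr.tri.s12]
  have h2 := congrArg (fun f : Tri3 r => f u v w) h1
  simp only [LinearMap.flip_apply] at h2
  exact h2

theorem bil_bd (TR : Tri3 r) (s : Fin r → ℝ) : ∃ M : ℝ, 0 ≤ M ∧ ∀ u v, |TR u v s| ≤ M * ‖u‖ * ‖v‖ := by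
  classical
  let b := Pi.basisFun ℝ (Fin r)
  have key : ∀ u v : Fin r → ℝ, TR u v s = ∑ i, ∑ j, u i * (v j * TR (b i) (b j) s) := by
    intro u v
    have hu : u = ∑ i, u i • b i := by
      have := b.sum_repr u
      simpa [b] using this.symm
    have hv : v = ∑ i, v i • b i := by
      have := b.sum_repr v
      simpa [b] using this.symm
    have h1 : TR u v s = TR (∑ i, u i • b i) (∑ i, v i • b i) s := by rw [← hu, ← hv]
    rw [h1]
    simp only [map_sum, map_smul, LinearMap.sum_apply, LinearMap.smul_apply, smul_eq_mul,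
      Finset.mul_sum]
    rw [Finset.sum_comm]
    refine Finset.sum_congr rfl fun i _ => Finset.sum_congr rfl fun j _ => ?_
    ring
  refine ⟨∑ i, ∑ j, |TR (b i) (b j) s|, Finset.sum_nonneg fun i _ => Finset.sum_nonneg fun j _ =>
    abs_nonneg _, fun u v => ?_⟩
  rw [key, Finset.sum_mul, Finset.sum_mul]
  refine (Finset.abs_sum_le_sum_abs _ _).trans (Finset.sum_le_sum fun i _ => ?_)
  rw [Finset.sum_mul, Finset.sum_mul]
  refine (Finset.abs_sum_le_sum_abs _ _).trans (Finset.sum_le_sum fun j _ => ?_)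
  rw [abs_mul, abs_mul]
  have h1 : |u i| ≤ ‖u‖ := norm_le_pi_norm u i
  have h2 : |v j| ≤ ‖v‖ := norm_le_pi_norm v j
  have h3 : |u i| * |v j| ≤ ‖u‖ * ‖v‖ := mul_le_mul h1 h2 (abs_nonneg _) (norm_nonneg _)
  have h4 := mul_le_mul_of_nonneg_right h3 (abs_nonneg (TR (b i) (b j) s))
  nlinarith

theorem near_one (hν : NumR ν) (y : Fin r → ℝ) : ∃ W : Cart X, ‖cR ν W - y‖ ≤ 1 := by
  obtain ⟨W, hW⟩ := ci_surj hν (fun i => ⌊y i⌋)
  refine ⟨W, ?_⟩
  show ‖rv (ci ν W) - y‖ ≤ 1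
  rw [hW, pi_norm_le_iff_of_nonneg zero_le_one]
  intro i
  rw [Pi.sub_apply, Real.norm_eq_abs, abs_le]
  have h1 := Int.floor_le (y i)
  have h2 := Int.lt_floor_add_one (y i)
  show -1 ≤ ((⌊y i⌋ : ℤ) : ℝ) - y i ∧ ((⌊y i⌋ : ℤ) : ℝ) - y i ≤ 1
  constructor <;> linarith

/-- a class `u` with `T(u,u,S) > 0`, `T(u,A,S) > 0`: the integral classes near `t u` have sections on `S` -/
theorem big_s [CharZero k] [T0Space X.P] (h : Hyp X) (hr : RR T l c) (hν : NumR ν)
    (hT : ∀ U V W, TR (cR ν U) (cR ν V) (cR ν W) = T U V W)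
    (htr : Algebra.trdeg k (X.kap z) = 2) (hS : SPr X z S) (hA : Ample A) {u : Fin r → ℝ}
    (h1 : 0 < TR u (cR ν A) (cR ν S)) (h2 : 0 < TR u u (cR ν S)) (c₀ : ℝ) :
    ∃ t₀ : ℝ, ∀ (t : ℝ) (W : Cart X), t₀ ≤ t → ‖cR ν W - t • u‖ ≤ c₀ → 0 < hz h.var z W := by
  obtain ⟨M, hM0, hM⟩ := bil_bd TR (cR ν S)
  obtain ⟨s', hs'⟩ : ∃ s', s' = cR ν S := ⟨_, rfl⟩
  obtain ⟨a, ha⟩ : ∃ a, a = cR ν A := ⟨_, rfl⟩
  rw [← hs'] at h1 h2 hM
  rw [← ha] at h1
  obtain ⟨t1, ht1⟩ := Pool.Agent.H24.ZL.lin_ev h1 (|T A S S| + M * |c₀| * ‖a‖)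
  obtain ⟨t2, ht2⟩ := Pool.Agent.H24.ZL.quad_ev (show 0 < TR u u s' / 2 by linarith)
    (M * ‖u‖ * |c₀| + M * ‖u‖ * ‖s'‖ / 2) (M * |c₀| * |c₀| / 2 + M * |c₀| * ‖s'‖ / 2 + |T S S S / 6 + l S|)
  refine ⟨max 0 (max t1 t2), fun t W ht hW => ?_⟩
  have ht0 : 0 ≤ t := (le_max_left _ _).trans ht
  have ht3 := ht1 t ((le_max_left _ _).trans ((le_max_right _ _).trans ht))
  have ht4 := ht2 t ((le_max_right _ _).trans ((le_max_right _ _).trans ht))
  obtain ⟨w, hw⟩ : ∃ w : Fin r → ℝ, w = cR ν W - t • u := ⟨_, rfl⟩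
  have hWw : cR ν W = t • u + w := by rw [hw]; abel
  rw [← hw] at hW
  have hwn : ‖w‖ ≤ |c₀| := hW.trans (le_abs_self _)
  have hsym := tr_sym hr hν hT
  have b1 : |TR w a s'| ≤ M * |c₀| * ‖a‖ := (hM w a).trans (by gcongr)
  have b2 : |TR u w s'| ≤ M * ‖u‖ * |c₀| := (hM u w).trans (by gcongr)
  have b3 : |TR w w s'| ≤ M * |c₀| * |c₀| := (hM w w).trans (by gcongr)
  have b4 : |TR u s' s'| ≤ M * ‖u‖ * ‖s'‖ := hM u s'
  have b5 : |TR w s' s'| ≤ M * |c₀| * ‖s'‖ := (hM w s').trans (by gcongr)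
  have e1 : T W A S = t * TR u a s' + TR w a s' := by
    rw [← hT, hWw, ← ha, ← hs']
    simp only [map_add, map_smul, LinearMap.add_apply, LinearMap.smul_apply, smul_eq_mul]
  have e2 : T W W S = t ^ 2 * TR u u s' + 2 * t * TR u w s' + TR w w s' := by
    rw [← hT, hWw, ← hs']
    simp only [map_add, map_smul, LinearMap.add_apply, LinearMap.smul_apply, smul_eq_mul]
    rw [hsym w u s']
    ring
  have e3 : T W S S = t * TR u s' s' + TR w s' s' := by
    rw [← hT, hWw, ← hs']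
    simp only [map_add, map_smul, LinearMap.add_apply, LinearMap.smul_apply, smul_eq_mul]
  rw [abs_le] at b1 b2 b3 b4 b5
  have h5 := tz h hr htr hS hA W (by
    rw [e1]
    have := le_abs_self (T A S S)
    linarith [b1.1])
  have h6 : chS T l S W = T W W S / 2 - T W S S / 2 + T S S S / 6 + l S := rfl
  rw [h6, e2, e3] at h5
  have h7 := neg_abs_le (T S S S / 6 + l S)
  have h8 : t * TR u w s' ≥ - (t * (M * ‖u‖ * |c₀|)) := by
    have := mul_le_mul_of_nonneg_left b2.1 ht0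
    linarith
  have h9 : t * TR u s' s' ≤ t * (M * ‖u‖ * ‖s'‖) := mul_le_mul_of_nonneg_left b4.2 ht0
  have h10 : (0 : ℝ) < (hz h.var z W : ℝ) := by
    nlinarith [b3.1, b5.2]
  exact_mod_cast h10

theorem hc_le [CharZero k] [IsAlgClosed k] [T0Space X.P] (h : Hyp X) (hr : RR T l c) (hν : NumR ν)
    (hT : ∀ U V W, TR (cR ν U) (cR ν V) (cR ν W) = T U V W)
    (htr : Algebra.trdeg k (X.kap z) = 2) (hS : SPr X z S) (hA : Ample A) {v : Fin r → ℝ}
    (h1 : TR v (cR ν A) (cR ν S) = 0) (h2 : 0 ≤ TR v v (cR ν S)) (hy : Cv z y) : dR hν h.var y v ≤ 0 := by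
  obtain ⟨m, hm, hub⟩ := mub h hr htr hS hA hy
  obtain ⟨s', hs'⟩ : ∃ s', s' = cR ν S := ⟨_, rfl⟩
  obtain ⟨a, ha⟩ : ∃ a, a = cR ν A := ⟨_, rfl⟩
  have hsym := tr_sym hr hν hT
  have hβ : 0 < TR a a s' := by
    rw [ha, hs', hT]
    exact pos_srf h hr htr hS hA hA
  rw [← hs', ← ha] at h1
  rw [← hs'] at h2
  obtain ⟨M, hM0, hM⟩ := bil_bd TR s'
  obtain ⟨N, hN0, hN⟩ := lin_bd (dR hν h.var y)
  have key : ∀ s : ℝ, 0 < s → dR hν h.var y v ≤ s * (m * TR a a s' - dR hν h.var y a) := by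
    intro s hs
    obtain ⟨u, hu⟩ : ∃ u, u = v + s • a := ⟨_, rfl⟩
    have e1 : TR u a s' = s * TR a a s' := by
      rw [hu]
      simp only [map_add, map_smul, LinearMap.add_apply, LinearMap.smul_apply, smul_eq_mul, h1]
      ring
    have e2 : TR u u s' = TR v v s' + s ^ 2 * TR a a s' := by
      rw [hu]
      simp only [map_add, map_smul, LinearMap.add_apply, LinearMap.smul_apply, smul_eq_mul, h1, hsym a v s']
      ring
    obtain ⟨t₀, ht₀⟩ := big_s h hr hν hT htr hS hA (u := u) (by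
      rw [← ha, ← hs', e1]
      positivity) (by
      rw [← hs', e2]
      positivity) 1
    have key2 : ∀ t : ℝ, t₀ ≤ t → 0 < t → t * (dR hν h.var y u - m * TR u a s') ≤ N + m * (M * ‖a‖) := by
      intro t ht htp
      obtain ⟨W, hW⟩ := near_one (X := X) hν (t • u)
      have h3 := hub W (ht₀ t W ht hW)
      obtain ⟨w, hw⟩ : ∃ w : Fin r → ℝ, w = cR ν W - t • u := ⟨_, rfl⟩
      have hWw : cR ν W = t • u + w := by rw [hw]; abel
      rw [← hw] at hW
      rw [← dR_ci hν h.var h.amp hy.2, hWw, map_add, map_smul, smul_eq_mul, ← hT, hWw, ← ha, ← hs'] at h3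
      have e3 : TR a (t • u + w) s' = t * TR u a s' + TR w a s' := by
        rw [hsym]
        simp only [map_add, map_smul, LinearMap.add_apply, LinearMap.smul_apply, smul_eq_mul]
      rw [e3] at h3
      have h4 := hN w
      have h5 := hM w a
      have h6 : N * ‖w‖ ≤ N := by
        calc N * ‖w‖ ≤ N * 1 := mul_le_mul_of_nonneg_left hW hN0
          _ = N := mul_one N
      have h7 : M * ‖w‖ * ‖a‖ ≤ M * ‖a‖ := by
        calc M * ‖w‖ * ‖a‖ ≤ M * 1 * ‖a‖ := by gcongr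
          _ = M * ‖a‖ := by ring
      rw [abs_le] at h4 h5
      have h8 : (m : ℝ) * TR w a s' ≤ m * (M * ‖a‖) :=
        mul_le_mul_of_nonneg_left (by linarith [h5.2]) (Nat.cast_nonneg m)
      linarith [h4.1]
    have h3 : dR hν h.var y u - m * TR u a s' ≤ 0 := by
      by_contra hcon
      push Not at hcon
      obtain ⟨t1, ht1⟩ := Pool.Agent.H24.ZL.lin_ev hcon (N + m * (M * ‖a‖))
      have h4 := ht1 (max 1 (max t₀ t1)) ((le_max_right _ _).trans (le_max_right _ _))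
      have h5 := key2 (max 1 (max t₀ t1)) ((le_max_left _ _).trans (le_max_right _ _))
        (lt_of_lt_of_le one_pos (le_max_left _ _))
      linarith
    rw [e1, hu, map_add, map_smul, smul_eq_mul] at h3
    linarith
  by_contra hcon
  push Not at hcon
  obtain ⟨q, hq⟩ : ∃ q, q = m * TR a a s' - dR hν h.var y a := ⟨_, rfl⟩
  have h3 := key (dR hν h.var y v / (2 * (|q| + 1))) (by positivity)
  rw [← hq] at h3
  have h4 : dR hν h.var y v / (2 * (|q| + 1)) * q ≤ dR hν h.var y v / 2 := by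
    have h5 : q ≤ |q| + 1 := by linarith [le_abs_self q]
    calc dR hν h.var y v / (2 * (|q| + 1)) * q ≤ dR hν h.var y v / (2 * (|q| + 1)) * (|q| + 1) := by gcongr
      _ = dR hν h.var y v / 2 := by field_simp
  linarith

/-- **the index theorem on a prime divisor for real classes** -/
theorem hc_nn [CharZero k] [IsAlgClosed k] [T0Space X.P] (h : Hyp X) (hr : RR T l c) (hν : NumR ν)
    (hT : ∀ U V W, TR (cR ν U) (cR ν V) (cR ν W) = T U V W)
    (htr : Algebra.trdeg k (X.kap z) = 2) (hS : SPr X z S) (hA : Ample A) {v : Fin r → ℝ}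
    (h1 : TR v (cR ν A) (cR ν S) = 0) (h2 : 0 ≤ TR v v (cR ν S)) (hy : Cv z y) : dR hν h.var y v = 0 := by
  refine le_antisymm (hc_le h hr hν hT htr hS hA h1 h2 hy) ?_
  have h3 := hc_le h hr hν hT htr hS hA (v := -v) (by
    rw [map_neg, LinearMap.neg_apply, LinearMap.neg_apply, h1, neg_zero]) (by
    rw [map_neg, LinearMap.neg_apply, map_neg, LinearMap.neg_apply, LinearMap.neg_apply, neg_neg]
    exact h2) hy
  rw [map_neg] at h3
  linarith

theorem hc [CharZero k] [IsAlgClosed k] [T0Space X.P] (h : Hyp X) (hr : RR T l c) (hν : NumR ν)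
    (hT : ∀ U V W, TR (cR ν U) (cR ν V) (cR ν W) = T U V W)
    (htr : Algebra.trdeg k (X.kap z) = 2) (hS : SPr X z S) (hA : Ample A) {v : Fin r → ℝ}
    (h1 : TR v (cR ν A) (cR ν S) = 0) (h2 : TR v v (cR ν S) = 0) (hy : Cv z y) : dR hν h.var y v = 0 :=
  hc_nn h hr hν hT htr hS hA h1 h2.ge hy

end Pool.Agent.H89.RT
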