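import Pool.Agent.H89.RT.Hc
import Pool.Agent.H20.RT.Bgd
import Pool.Agent.H20.TP.Loc
import Pool.Agent.H24.VP.PosB

/-!
# [H89 RT End] THEOREM R (MP_e49dc9_ag): the end of Part 1

`hcp_pos`, `hcp_zero`: `S` a prime divisor with `T(w,w',S) = 0` on `Vp p`: the degrees on the curves of `S` are proportional to `T(.,A,S)` on `Vp p`.
`end_`: finitely many effective classes in `Vp p` whose cone is a neighbourhood of `p` in `Vp p`, `T = 0` on `Vp p`: then `Vp p` is nef near `p`.
PROOF. `v ∈ Vp p` near `p`, `d > 0`, path `q = p + s (v - p) + d A`.  If `q` is in the closure of the ample cone it is in the ample cone, by the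
criterion of Nakai.
-/

set_option autoImplicit false

namespace Pool.Agent.H89.RT

open Pool.Agent.H54.RV Pool.Agent.H83.TU Pool.Agent.H83.TK Pool.Agent.H20.TD Pool.Agent.H20.TP Pool.Agent.H20.RT
open Pool.Agent.H24.VP (RR chS)

variable {k K : Type} [Field k] [Field K] [Algebra k K] {X : Mod k K} {r : ℕ}
  {ν : Cart X →* Multiplicative (Fin r → ℤ)} {T : Cart X → Cart X → Cart X → ℝ} {l : Cart X → ℝ} {c : ℝ} {TR : Tri3 r}
  {z y : X.P} {S A : Cart X} {p w : Fin r → ℝ}

theorem hcp_pos [CharZero k] [IsAlgClosed k] [T0Space X.P] (h : Hyp X) (hr : RR T l c) (hν : NumR ν)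
    (hT : ∀ U V W, TR (cR ν U) (cR ν V) (cR ν W) = T U V W)
    (htr : Algebra.trdeg k (X.kap z) = 2) (hS : SPr X z S) (hA : Ample A)
    (hB : ∀ w ∈ Vp p, ∀ w' ∈ Vp p, TR w w' (cR ν S) = 0) (h1 : 0 < TR p (cR ν A) (cR ν S)) (hw : w ∈ Vp p)
    (hy : Cv z y) :
    dR hν h.var y w = TR w (cR ν A) (cR ν S) / TR p (cR ν A) (cR ν S) * dR hν h.var y p := by
  obtain ⟨q, hq⟩ : ∃ q, q = TR w (cR ν A) (cR ν S) / TR p (cR ν A) (cR ν S) := ⟨_, rfl⟩
  have hv : w - q • p ∈ Vp p := Submodule.sub_mem _ hw (Submodule.smul_mem _ _ (self_vp p))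
  have h2 := hc h hr hν hT htr hS hA (v := w - q • p) (by
    rw [map_sub, map_smul, LinearMap.sub_apply, LinearMap.smul_apply, LinearMap.sub_apply, LinearMap.smul_apply,
      smul_eq_mul, hq, div_mul_cancel₀ _ h1.ne', sub_self]) (hB _ hv _ hv) hy
  rw [map_sub, map_smul, smul_eq_mul, sub_eq_zero] at h2
  rw [h2, hq]

theorem hcp_zero [CharZero k] [IsAlgClosed k] [T0Space X.P] (h : Hyp X) (hr : RR T l c) (hν : NumR ν)
    (hT : ∀ U V W, TR (cR ν U) (cR ν V) (cR ν W) = T U V W)
    (htr : Algebra.trdeg k (X.kap z) = 2) (hS : SPr X z S) (hA : Ample A)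
    (hB : ∀ w ∈ Vp p, ∀ w' ∈ Vp p, TR w w' (cR ν S) = 0) (h1 : TR p (cR ν A) (cR ν S) = 0) (hw : w ∈ Vp p) :
    TR w (cR ν A) (cR ν S) = 0 ∧ ∀ y, Cv z y → dR hν h.var y w = 0 := by
  have h2 : TR w (cR ν A) (cR ν S) = 0 := vp_tri hr hν hT h.amp h1 hw
  exact ⟨h2, fun y hy => hc h hr hν hT htr hS hA h2 (hB _ hw _ hw) hy⟩

/-- two local equations of the same prime divisor -/
theorem spr_T [CharZero k] (h : Hyp X) (hr : RR T l c) {S' : Cart X} (hS : SPr X z S) (hS' : SPr X z S')
    (U V : Cart X) : T U V S = T U V S' := by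
  have key : ∀ {S S' : Cart X}, SPr X z S → SPr X z S' → Effective (S * S'⁻¹) := by
    intro S S' hS hS' x
    have h1 : (S * S'⁻¹).eq x = S.eq x / S'.eq x := by
      rw [mul_eq, inv_eq, div_eq_mul_inv]
    rw [h1, hS'.mem_iff h.var x (hS.eff x)]
    intro hx
    exact hS.nun x hx
  have h1 := Pool.Agent.H24.VP.triv_T h hr (key hS hS') (by
    rw [mul_inv, inv_inv, mul_comm]
    exact key hS' hS) U V
  have h2 : T S U V = T S' U V := by
    have e : S = S * S'⁻¹ * S' := by rw [inv_mul_cancel_right]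
    rw [e, hr.tri.add, h1, zero_add]
  have h3 : ∀ W, T U V W = T W U V := fun W => by rw [hr.tri.s23, hr.tri.s12]
  rw [h3, h3, h2]

theorem spr_R [CharZero k] (h : Hyp X) (hr : RR T l c) (hν : NumR ν)
    (hT : ∀ U V W, TR (cR ν U) (cR ν V) (cR ν W) = T U V W) {S' : Cart X} (hS : SPr X z S) (hS' : SPr X z S')
    (x y : Fin r → ℝ) : TR x y (cR ν S) = TR x y (cR ν S') := by
  have h1 : LinearMap.compr₂ TR (LinearMap.applyₗ (R := ℝ) (M := Fin r → ℝ) (M₂ := ℝ) (cR ν S)) =
      LinearMap.compr₂ TR (LinearMap.applyₗ (R := ℝ) (M := Fin r → ℝ) (M₂ := ℝ) (cR ν S')) := by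
    refine ext_uniq hν fun U => ext_uniq hν fun V => ?_
    show TR (cR ν U) (cR ν V) (cR ν S) = TR (cR ν U) (cR ν V) (cR ν S')
    rw [hT, hT, spr_T h hr hS hS']
  exact congrArg (fun f : (Fin r → ℝ) →ₗ[ℝ] (Fin r → ℝ) →ₗ[ℝ] ℝ => f x y) h1

/-- the curves outside of the zero set of a section -/
private theorem dR_X [CharZero k] (h : Hyp X) (hν : NumR ν) {W : Cart X} {Z : Set X.P} (hW : HasX W Z)
    (hy : Algebra.trdeg k (X.kap y) = 1) (hyZ : y ∉ Z) : 0 ≤ dR hν h.var y (cR ν W) := by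
  obtain ⟨s, hs0, hs1, -⟩ := hasX_res h.var hW hyZ
  rw [dR_ci hν h.var h.amp hy]
  exact_mod_cast dz_nn h.var h.amp hy hs1 hs0

/-- **the end of Part 1** -/
theorem end_ [CharZero k] [IsAlgClosed k] [T0Space X.P] (h : Hyp X) (hr : RR T l c) (hν : NumR ν)
    (hT : ∀ U V W, TR (cR ν U) (cR ν V) (cR ν W) = T U V W) (hA : Ample A) (hp : p ∈ closure (CC ν))
    (h1 : 0 < TR p p (cR ν A)) (hz0 : ∀ w ∈ Vp p, TR p p w = 0)
    (h3 : ∀ u ∈ Vp p, ∀ v ∈ Vp p, ∀ w ∈ Vp p, TR u v w = 0)
    {m : ℕ} {W : Fin m → Cart X} {Z : Fin m → Set X.P} (hW : ∀ j, HasX (W j) (Z j))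
    (hzs : ∀ j z S, z ∈ Z j → Algebra.trdeg k (X.kap z) = 2 → SPr X z S → TR p p (cR ν S) = 0)
    {e : ℝ} (he : 0 < e)
    (hcone : ∀ v ∈ Vp p, ‖v - p‖ < e → ∃ c : Fin m → ℝ, (∀ j, 0 ≤ c j) ∧ v = ∑ j, c j • cR ν (W j)) :
    ∃ e' : ℝ, 0 < e' ∧ ∀ v ∈ Vp p, ‖v - p‖ < e' → v ∈ closure (CC ν) := by
  classical
  obtain ⟨a, ha⟩ : ∃ a, a = cR ν A := ⟨_, rfl⟩
  have hs12 := tr_s12 hr hν hT
  have hs23 := tr_s23 hr hν hT
  have hOC := oc_cc h.var hν
  have haC : a ∈ CC ν := by
    rw [ha]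
    exact cc_amp h.var hν hA
  -- the finite set of surfaces
  obtain ⟨F, hFd⟩ : ∃ F : Set X.P, F = {z : X.P | (∃ j, z ∈ Z j) ∧ Algebra.trdeg k (X.kap z) = 2} := ⟨_, rfl⟩
  have hF : F.Finite := by
    rw [hFd]
    refine (Set.finite_iUnion fun j => srf_fin h (hW j)).subset ?_
    rintro z ⟨⟨j, hj⟩, hz⟩
    exact Set.mem_iUnion.2 ⟨j, hj, hz⟩
  have hsp : ∀ z : X.P, ∃ S : Cart X, Algebra.trdeg k (X.kap z) = 2 → SPr X z S := by
    intro z
    by_cases hz : Algebra.trdeg k (X.kap z) = 2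
    · obtain ⟨S, hS⟩ := spr_of_trdeg h hz
      exact ⟨S, fun _ => hS⟩
    · exact ⟨1, fun h => absurd h hz⟩
  choose Sz hSz using hsp
  -- near `p`
  have hcont : ∀ u v : Fin r → ℝ, Continuous fun x : Fin r → ℝ => TR x u v := fun u v =>
    cont3' TR continuous_id continuous_const continuous_const
  have e1 : ∀ᶠ v in nhds p, 0 < TR v v a := by
    have h4 : Continuous fun x : Fin r → ℝ => TR x x a := cont3' TR continuous_id continuous_id continuous_const
    refine continuousAt_const.eventually_lt h4.continuousAt ?_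
    rw [ha]
    exact h1
  have e2 : ∀ᶠ v in nhds p, 0 < TR v a a := by
    refine continuousAt_const.eventually_lt (hcont a a).continuousAt ?_
    rw [ha]
    exact paa_pos h hr hν hT hA hp h1
  have e3 : ∀ᶠ v in nhds p, ∀ z ∈ F, 0 < TR p a (cR ν (Sz z)) → 0 < TR v a (cR ν (Sz z)) := by
    rw [Filter.eventually_all_finite hF]
    intro z _
    by_cases h5 : 0 < TR p a (cR ν (Sz z))
    · filter_upwards [continuousAt_const.eventually_lt (hcont a (cR ν (Sz z))).continuousAt h5] with v hv _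
      exact hv
    · exact Filter.Eventually.of_forall fun v h6 => absurd h6 h5
  obtain ⟨e', he', h4⟩ := Metric.eventually_nhds_iff_ball.1 (e1.and (e2.and e3))
  refine ⟨min e e', lt_min he he', fun v hv hvn => ?_⟩
  have hve := lt_of_lt_of_le hvn (min_le_left _ _)
  have hve' := lt_of_lt_of_le hvn (min_le_right _ _)
  -- the criterion on the path
  have nak : ∀ s d : ℝ, 0 ≤ s → s ≤ 1 → 0 < d → p + s • (v - p) + d • a ∈ closure (CC ν) →
      p + s • (v - p) + d • a ∈ CC ν := by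
    intro s d hs0 hs1 hd hqc
    obtain ⟨u, hu⟩ : ∃ u, u = p + s • (v - p) := ⟨_, rfl⟩
    rw [← hu] at hqc ⊢
    have hup : u ∈ Vp p := by
      rw [hu]
      exact Submodule.add_mem _ (self_vp p) (Submodule.smul_mem _ _ (Submodule.sub_mem _ hv (self_vp p)))
    have hun : ‖u - p‖ ≤ ‖v - p‖ := by
      rw [hu, add_sub_cancel_left, norm_smul, Real.norm_eq_abs, abs_of_nonneg hs0]
      exact mul_le_of_le_one_left (norm_nonneg _) hs1
    obtain ⟨b, hb0, hb⟩ := hcone u hup (hun.trans_lt hve)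
    obtain ⟨f1, f2, f3⟩ := h4 u (by
      rw [Metric.mem_ball, dist_eq_norm]
      exact hun.trans_lt hve')
    have hexp : ∀ x y : Fin r → ℝ, TR (u + d • a) x y = TR u x y + d * TR a x y := fun x y => by
      rw [map_add, map_smul, LinearMap.add_apply, LinearMap.smul_apply, LinearMap.add_apply, LinearMap.smul_apply,
        smul_eq_mul]
    have hexp2 : ∀ x y : Fin r → ℝ, TR x (u + d • a) y = TR x u y + d * TR x a y := fun x y => by
      rw [map_add, map_smul, LinearMap.add_apply, LinearMap.smul_apply, smul_eq_mul]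
    have hexp3 : ∀ x y : Fin r → ℝ, TR x y (u + d • a) = TR x y u + d * TR x y a := fun x y => by
      rw [map_add, map_smul, smul_eq_mul]
    have haaa : 0 < TR a a a := by
      rw [ha, hT]
      exact Pool.Agent.H24.VP.pos_amp h hr hA hA hA
    have hac : a ∈ closure (CC ν) := subset_closure haC
    refine good_cc h hr hν hT hqc ?_ ?_
    · rw [hexp, hexp2, hexp2, hexp3, hexp3, hexp3, hexp3, h3 u hup u hup u hup, hs23 u a u, hs12 a u u, hs23 u a u,
        hs23 a a u, hs12 a u a]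
      positivity
    intro z S htr hS
    have hMq := ms_nef h hr hν hT htr hS hqc
    have hMa := ms_nef h hr hν hT htr hS hac
    have hMp := ms_nef h hr hν hT htr hS hp
    have hβ : 0 < TR a a (cR ν S) := by
      rw [ha, hT]
      exact pos_srf h hr htr hS hA hA
    refine ⟨?_, ?_⟩
    · by_cases hzF : z ∈ F
      · -- a surface of the finite set
        obtain ⟨j, hj⟩ : ∃ j, z ∈ Z j := by
          rw [hFd] at hzF
          exact hzF.1
        have hpp := hzs j z S hj htr hS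
        have hB : ∀ w ∈ Vp p, ∀ w' ∈ Vp p, TR w w' (cR ν S) = 0 := fun w hw w' hw' =>
          bgd2 h hr hν hT htr hS hA hp h1 hz0 hpp hw hw'
        have hnn : 0 ≤ TR u a (cR ν S) := by
          rcases (ms_TT h hr hν hT htr hS hMp hMa).lt_or_eq with h7 | h7
          · rw [spr_R h hr hν hT hS (hSz z htr)] at h7 ⊢
            exact (f3 z hzF h7).le
          · rw [ha] at h7 ⊢
            rw [(hcp_zero h hr hν hT htr hS hA hB h7.symm hup).1]
        rw [hexp, hexp2, hexp2, hB u hup u hup, hs12 a u]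
        positivity
      · -- the sections do not vanish on `z`
        have hWz : ∀ j, 0 < hz h.var z (W j) := fun j => by
          have h5 : z ∉ Z j := fun h6 => hzF (by
            rw [hFd]
            exact ⟨⟨j, h6⟩, htr⟩)
          exact hasS_pos h.var hA (hasX_res h.var (hW j) h5)
        have hnu : ∀ x : Fin r → ℝ, MS hν h.var TR z S x → 0 ≤ TR x u (cR ν S) := by
          intro x hx
          rw [hb]
          simp only [map_sum, map_smul, LinearMap.sum_apply, LinearMap.smul_apply, smul_eq_mul]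
          exact Finset.sum_nonneg fun j _ => mul_nonneg (hb0 j) (hx.eff _ (hWz j))
        have h5 := hnu _ hMq
        have h6 := hnu _ hMa
        rw [hs12] at h6
        rw [hexp2 (u + d • a), hexp a]
        have h7 : 0 < d * (TR u a (cR ν S) + d * TR a a (cR ν S)) := by positivity
        linarith
    · intro x hx
      have hxa : 0 < dR hν h.var x a := dR_cc hν h.var hA hx.2 haC
      have hxp : 0 ≤ dR hν h.var x p := dR_nef hν h.var hA hx.2 hp
      have hxu : 0 ≤ dR hν h.var x u := by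
        by_cases hxZ : ∃ j, x ∈ Z j
        · obtain ⟨j, hj⟩ := hxZ
          obtain ⟨z', hz'x, hz't, hz'Z⟩ := hasX_srf h (hW j) hj
          have hS' := hSz z' hz't
          have hpp := hzs j z' _ hz'Z hz't hS'
          have hB : ∀ w ∈ Vp p, ∀ w' ∈ Vp p, TR w w' (cR ν (Sz z')) = 0 := fun w hw w' hw' =>
            bgd2 h hr hν hT hz't hS' hA hp h1 hz0 hpp hw hw'
          have hM1 := ms_nef h hr hν hT hz't hS' hp
          have hM2 := ms_nef h hr hν hT hz't hS' hac
          rcases (ms_TT h hr hν hT hz't hS' hM1 hM2).lt_or_eq with h7 | h7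
          · have h8 := f3 z' (by
              rw [hFd]
              exact ⟨⟨j, hz'Z⟩, hz't⟩) h7
            rw [ha] at h7 h8
            rw [hcp_pos h hr hν hT hz't hS' hA hB h7 hup ⟨hz'x, hx.2⟩]
            exact mul_nonneg (div_nonneg h8.le h7.le) hxp
          · rw [ha] at h7
            rw [(hcp_zero h hr hν hT hz't hS' hA hB h7.symm hup).2 x ⟨hz'x, hx.2⟩]
        · push Not at hxZ
          rw [hb]
          simp only [map_sum, map_smul, smul_eq_mul]
          exact Finset.sum_nonneg fun j _ => mul_nonneg (hb0 j) (dR_X h hν (hW j) hx.2 (hxZ j))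
      rw [map_add, map_smul, smul_eq_mul]
      positivity
  -- the path
  have path : ∀ d : ℝ, 0 < d → v + d • a ∈ CC ν := by
    intro d hd
    obtain ⟨f, hf⟩ : ∃ f : ℝ → (Fin r → ℝ), f = fun s => p + s • (v - p) + d • a := ⟨_, rfl⟩
    have hfc : Continuous f := by
      rw [hf]
      fun_prop
    have h5 : Set.Icc (0 : ℝ) 1 ⊆ f ⁻¹' (CC ν) := by
      refine isPreconnected_Icc.subset_of_closure_inter_subset (cc_open.preimage hfc) ⟨0, ⟨le_rfl, zero_le_one⟩, ?_⟩ ?_
      · show f 0 ∈ CC ν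
        rw [hf]
        simp only [zero_smul, add_zero]
        rw [add_comm]
        exact hOC.add_cl (hOC.smul d hd a haC) hp
      · rintro s ⟨hs, hs0, hs1⟩
        have h6 : f s ∈ closure (CC ν) := by
          have h7 : s ∈ f ⁻¹' (closure (CC ν)) := closure_minimal (Set.preimage_mono subset_closure)
            (isClosed_closure.preimage hfc) hs
          exact h7
        show f s ∈ CC ν
        rw [hf] at h6 ⊢
        exact nak s d hs0 hs1 hd h6
    have h6 := h5 (⟨zero_le_one, le_rfl⟩ : (1 : ℝ) ∈ Set.Icc (0 : ℝ) 1)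
    have h7 : f 1 ∈ CC ν := h6
    rw [hf] at h7
    simp only [one_smul] at h7
    rwa [add_sub_cancel] at h7
  have h5 : Filter.Tendsto (fun n : ℕ => v + (1 / ((n : ℝ) + 1)) • a) Filter.atTop (nhds (v + (0 : ℝ) • a)) :=
    tendsto_const_nhds.add (tendsto_one_div_add_atTop_nhds_zero_nat.smul_const a)
  rw [zero_smul, add_zero] at h5
  exact mem_closure_of_tendsto h5 (Filter.Eventually.of_forall fun n => path _ (by positivity))

end Pool.Agent.H89.RT
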