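import Pool.Agent.H89.RT.End
import Pool.Agent.H41.RT.WW
import Pool.Agent.H32.RT.Ww
import Pool.Agent.H32.TN.Int
import Pool.Agent.H20.RT.Ray
import Pool.Agent.H20.RT.Big
import Pool.Agent.H36.RZ.Sq
import Pool.Agent.H83.RT.Nz

/-!
# [H89 RT Main] THEOREM R (MP_e49dc9_ag): the local structure of the nef cone at the classes `p` with `l p > 0`

* `p . p . p > 0`: `vp_big` (H20/RT/Big).
* `p . p = 0`: `sq_theta` (H36/RZ/Sq, H24/RL): `T(p,.,A) = 0` on `Vp p`, so `Vp p` is the line of `p` (`ray_of'`).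
* `p . p ≠ 0` a multiple of an integral class: `part1`: `T(p,p,.) = 0` on `Vp p`, `T = 0` on `Vp p` (`t0`), `p` is an interior
  point of the cone of effective classes of `Vp p` (`ww_cc`), and it is an interior point of the nef cone of `Vp p` (`end_`).
* otherwise there is a family of surfaces (`z_bc`).
-/

set_option autoImplicit false

namespace Pool.Agent.H89.RT

open Pool.Agent.H54.RV Pool.Agent.H83.TU Pool.Agent.H83.TK Pool.Agent.H20.TD Pool.Agent.H20.TP Pool.Agent.H20.RT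
  Pool.Agent.H39.TZ Pool.Agent.H32.TN
open Pool.Agent.H24.VP (RR)

variable {k K : Type} [Field k] [Field K] [Algebra k K] {X : Mod k K} {r : ℕ}
  {ν : Cart X →* Multiplicative (Fin r → ℤ)} {T : Cart X → Cart X → Cart X → ℝ} {l₀ : Cart X → ℝ} {c : ℝ} {TR : Tri3 r}
  {p : Fin r → ℝ} {A : Cart X}

/-- Part 1: `p ^ 2 ≠ 0` is a multiple of an integral class -/
theorem part1 [CharZero k] [IsAlgClosed k] [T0Space X.P] (h : Hyp X) (hr : RR T l₀ c) (hν : NumR ν)
    (hT : ∀ U V W, TR (cR ν U) (cR ν V) (cR ν W) = T U V W) {l : (Fin r → ℝ) →ₗ[ℝ] ℝ} (hl : ∀ D, l (cR ν D) = l₀ D)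
    (hp : p ∈ closure (AmpR ν)) (hlp : 0 < l p) (h3 : TR p p p = 0) (hpp : TR p p ≠ 0) (hI : SqInt ν TR p) :
    ∃ e : ℝ, 0 < e ∧ ∀ y ∈ Vp p, ‖y - p‖ < e → y ∈ closure (AmpR ν) := by
  obtain ⟨A, hA⟩ := h.amp
  have hpC : p ∈ closure (CC ν) := by rwa [← cl_eq h.var hν]
  have h1 : 0 < TR p p (cR ν A) := pp_pos h hr hν hT hA hpC hpp
  have hz0 : ∀ w ∈ Vp p, TR p p w = 0 := Pool.Agent.H32.RT.sq_vp hν h3 hpp hI
  have h0 := Pool.Agent.H32.RT.t0 h hν hr hT hl hp hlp hpp hz0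
  obtain ⟨m, W, e, he, hW, hcone⟩ := Pool.Agent.H41.RT.ww_cc h hr hν hT hl hA hpC hlp h1 h0
  choose Z hZ using fun j => hasX_of_pos (hW j).1
  rw [cl_eq h.var hν]
  refine end_ h hr hν hT hA hpC h1 hz0 h0 hZ (fun j z S hz _ hS => ?_) he hcone
  exact Pool.Agent.H32.RT.zs h hν hr hT hp hS (hZ j) hz (hz0 _ (hW j).2)

theorem thmR [CharZero k] [IsAlgClosed k] [T0Space X.P] (h : Hyp X) (hr : RR T l₀ c) (hν : NumR ν)
    (hT : ∀ U V W, TR (cR ν U) (cR ν V) (cR ν W) = T U V W) {l : (Fin r → ℝ) →ₗ[ℝ] ℝ} (hl : ∀ D, l (cR ν D) = l₀ D)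
    (hp : p ∈ closure (AmpR ν)) (hlp : 0 < l p) :
    (∃ e : ℝ, 0 < e ∧ ∀ y ∈ Vp p, ‖y - p‖ < e → y ∈ closure (AmpR ν)) ∨
      (TR p p p = 0 ∧ FamB ν TR p ∧ ¬ SqInt ν TR p) := by
  have hpC : p ∈ closure (CC ν) := by rwa [← cl_eq h.var hν]
  rcases (cube_nn h hr hT hp).eq_or_lt with h3 | h3
  · by_cases hpp : TR p p = 0
    · left
      obtain ⟨A, hA⟩ := h.amp
      have hp0 : p ≠ 0 := by
        rintro rfl
        rw [map_zero] at hlp
        exact lt_irrefl _ hlp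
      have hAC : cR ν A ∈ closure (CC ν) := subset_closure (cc_amp h.var hν hA)
      have h1 : 0 < TR p (cR ν A) (cR ν A) := by
        rcases (tr_nn h hr hν hT hpC hAC hAC).eq_or_lt with h1 | h1
        · have h2 := pq_zero h hr hν hT hA hpC hAC h1.symm
          exact (hp0 (Pool.Agent.H83.RT.num_zero h hr hν hT fun x hx => curves_zero h hr hν hT hA
            (fun u => by rw [h2, LinearMap.zero_apply]) (by rw [hpp, LinearMap.zero_apply]) hx)).elim
        · exact h1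
      have h2 := Pool.Agent.H36.RZ.sq_theta h hr hν hT hl hA hpC hlp hpp
      refine ⟨‖p‖, norm_pos_iff.2 hp0, fun y hy hyp => ?_⟩
      obtain ⟨q, rfl⟩ := ray_of' h hr hν hT (fun v hv => Pool.Agent.H83.RT.num_zero h hr hν hT hv) hA h1 h2 hy
      have hq : 0 ≤ q := by
        have h4 : ‖q • p - p‖ = |q - 1| * ‖p‖ := by
          rw [← Real.norm_eq_abs, ← norm_smul, sub_smul, one_smul]
        rw [h4] at hyp
        have h5 : |q - 1| < 1 := by
          by_contra hcon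
          push Not at hcon
          nlinarith [norm_nonneg p]
        linarith [(abs_lt.1 h5).1]
      rw [cl_eq h.var hν]
      exact cl_smul hq hpC
    · by_cases hI : SqInt ν TR p
      · exact Or.inl (part1 h hr hν hT hl hp hlp h3.symm hpp hI)
      · right
        rcases z_bc h hν hr hT hl hp hlp with h4 | h4 | h4
        · rw [← h3] at h4
          exact (lt_irrefl _ h4).elim
        · exact ⟨h3.symm, h4, hI⟩
        · exact (hpp h4.1).elim
  · left
    rw [cl_eq h.var hν]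
    exact vp_big h hr hν hT hpC h3

end Pool.Agent.H89.RT
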