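import Pool.Agent.H20.TP.Srf
import Pool.Agent.H39.TZ.N2

/-!
# [H89 RT Dcy] THEOREM R (MP_e49dc9_ag): the zero divisor of a section on a surface contains a given curve

`G` has a nonzero section on the surface `z` with zero set `Z`, `y ∈ Z` a curve.  Then `T(U,G,S) = deg_y U + ∑ deg_(x i) U` for all `U`, with
finitely many curves `x i` in `Z`.  (`T_dec` of H39/TZ/N2 with one curve prescribed.)
PROOF. As `T_dec`, with the chain lemma `chain` (H39/TK/Chn.lean) on `subM hX z` for the homogeneous ideals `J' = twi (HI.top _) E ≤ J = van _ y`, where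
`H = resD hX z A` (`A` ample), `E = prin s * resD hX z G` (effective, `s` the section; compare `step_pt`, `step_van` in H41/ZP/Stp.lean): `J' ≤ J` because
`E.eq` is not a unit at `y` (an element `b` of degree `n` of `twi` has `b H.eq^n (E.eq)⁻¹ ∈ O_y`, so `b H.eq^n` is not a unit at `y`).  `twi_h`, `top_h`,
`van_h` (H39/TK/Twi): `hv y W ≤ h0 (W E⁻¹) + ∑ h0 (ζ i, W A^(-c i))`, with equality for `W A^n`, `n` large.  For a point `ζ i`: `J'` and `J` differ at `ζ i`,
so `E` is not a unit at `ζ i` [otherwise `E` is a unit at all generalizations of `ζ i`, so `¬ y ⤳ ζ i`, and both ideals are `⊤` at `ζ i`: `J'` as in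
`twi_same`; `van` by a section which vanishes at `y` and not at `ζ i`: use a section of a power of `H` with affine nonzero set (ampleness) times an element
of the ideal of `y`, or argue with `at_`, see `van` in H39/TK/Base.lean].  Also `h0 z (W A^n) = hv y (W A^n) + h0 y (W A^n)` for `n` large: `ser_ample`
(H24/TK/Ser) for `subM hX z` and the point `y` (the restriction to `y` is surjective, its kernel is `secv`; compare H20/TK/Van.lean, H20/TK/K0.lean), and
`h0_res` (H41/ZP/Res), `hz_sub` (H20/TP/SubSub).  So for `n` large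
`hz z (W A^n) - hz z (W A^n G⁻¹) = hz y (W A^n) + ∑ hz (ζ i) (W A^n A^(-c i))`; compare `W = U` and `W = 1` with `srf_ev` (`ev_srf` in H20/TP/Srf) and
`n2_piece`, `n2_chS` of H39/TZ/N2.lean (private there: copy them).
-/

set_option autoImplicit false

namespace Pool.Agent.H89.RT

open Pool.Agent.H54.RV Pool.Agent.H83.TU Pool.Agent.H83.TK Pool.Agent.H20.TD Pool.Agent.H20.TP
open Pool.Agent.H24.VP (RR chS)

section Gen

open Pool.Agent.H39.TK

variable {k K : Type} [Field k] [Field K] [Algebra k K] {X : Mod k K}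

/-- sections vanishing at a point and the restriction to the point -/
private theorem dcy_hv (hX : IsVar X) (y : X.P) (W : Cart X) (hf : Module.Finite k (secL W 1))
    (hs : Function.Surjective (resS hX y W 1)) : h0 W 1 = hv y W + h0 (resD hX y W) 1 := by
  have h3 := LinearMap.finrank_range_add_finrank_ker (resS hX y W 1)
  rw [LinearMap.range_eq_top.2 hs, finrank_top] at h3
  have h5 : Module.finrank k (LinearMap.ker (resS hX y W 1)) = hv y W := by
    apply LinearEquiv.finrank_eq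
    refine LinearEquiv.ofBijective
      ({ toFun := fun f => ⟨f.1.1, f.1.2, fun hu => by
            have h6 : resS hX y W 1 f.1 = 0 := f.2
            rw [resS_zero, pow_one] at h6
            exact h6 hu⟩
         map_add' := fun _ _ => rfl
         map_smul' := fun _ _ => rfl } : LinearMap.ker (resS hX y W 1) →ₗ[k] secv y W) ⟨?_, ?_⟩
    · intro f g hfg
      have h6 : (f.1.1 : K) = g.1.1 := congrArg (fun t : secv y W => (t : K)) hfg
      exact Subtype.ext (Subtype.ext h6)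
    · rintro ⟨f, hf1, hf2⟩
      refine ⟨⟨⟨f, hf1⟩, ?_⟩, rfl⟩
      rw [LinearMap.mem_ker, resS_zero, pow_one]
      exact hf2
  rw [h5] at h3
  unfold h0
  omega

/-- the chain lemma for the sections of `- E` in the sections which vanish at `y`, `y` in the support of `E` -/
private theorem dcy_chain (hX : IsVar X) (hγ : ∃ γ, Gen X γ) (H : Cart X) (hH : Ample H) (hN : Noe H) (hF : FinX X)
    (hZ : FinZ hX) (hS : Ser hX H) (E : Cart X) (hE : Effective E) (y : X.P) (hy : ¬ Un (X.O y) (E.eq y)) :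
    ∃ (r : ℕ) (ζ : Fin r → X.P) (c : Fin r → ℕ),
      (∀ W : Cart X, ∃ n₀ : ℕ, ∀ n ≥ n₀,
        hv y (W * H ^ n) = h0 (W * H ^ n * E⁻¹) 1 + ∑ i, h0 (resD hX (ζ i) (W * H ^ n * (H ^ c i)⁻¹)) 1) ∧
      ∀ i, ¬ Un (X.O (ζ i)) (E.eq (ζ i)) := by
  have hle : twi hX hH (HI.top H) E hE ≤ van H y := by
    intro n b hb
    refine ⟨(twi hX hH (HI.top H) E hE).le n hb, fun hu => hy ?_⟩
    have h1 := (top_at hX hH y _).1 (hb y)
    have h2 : (E.eq y)⁻¹ ∈ X.O y := by
      rw [mul_comm] at h1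
      exact (mem_mul_un hu).1 h1
    exact ⟨E.ne y, hE y, h2⟩
  obtain ⟨r, ζ, c, -, hb, hc⟩ := chain hX hγ H hH hN hF hZ hS _ _ hle
  refine ⟨r, ζ, c, fun W => ?_, fun i hu => hc i ?_⟩
  · obtain ⟨n₀, h0⟩ := hb W
    refine ⟨n₀, fun n hn => ?_⟩
    have h2 := h0 n hn
    rwa [van_h hX hH, twi_h, top_h hX hH] at h2
  · have h1 : ¬ y ⤳ ζ i := by
      intro hs
      refine hy ?_
      have h2 := un_mono (hX.spec _ _ hs) hu
      have h3 := quo_un E y (ζ i) hs
      have e : E.eq (ζ i) = E.eq y * (E.eq (ζ i) / E.eq y) := by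
        rw [mul_div_cancel₀ _ (E.ne y)]
      rw [e, un_mul_un h3] at h2
      exact h2
    ext f
    rw [twi_at, top_at hX hH, van_at hX hH, mem_mul_un (un_inv hu)]
    exact ⟨fun h => ⟨h, fun hs => absurd hs h1⟩, fun h => h.1⟩

end Gen

variable {k K : Type} [Field k] [Field K] [Algebra k K] {X : Mod k K}
  {T : Cart X → Cart X → Cart X → ℝ} {l : Cart X → ℝ} {c : ℝ}

/-- the points of the zero set have dimension less than two -/
private theorem n2_tr (hX : IsVar X) {z : X.P} (htr : Algebra.trdeg k (X.kap z) = 2) {G : Cart X} {Z : Set X.P}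
    (hG : HasS hX z G Z) {y : X.P} (hy : y ∈ Z) : Algebra.trdeg k (X.kap y) < 2 := by
  obtain ⟨s, hs0, hs1, rfl⟩ := hG
  obtain ⟨hzy, hn⟩ := hy
  have h1 := trdeg_lt_gen (isVar_sub hX z) (gen_sub hX z) (x := ⟨y, hzy⟩)
    (a := s * (resD hX z G).eq ⟨y, hzy⟩) (mul_ne_zero hs0 ((resD hX z G).ne _)) hn
  rw [Pool.Agent.H83.TK.trdeg_sub hX z, htr] at h1
  exact h1

open Classical in
/-- the numbers of sections on a piece -/
private theorem n2_piece [CharZero k] [IsAlgClosed k] (h : Hyp X) {y : X.P} (htr : Algebra.trdeg k (X.kap y) < 2)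
    {A : Cart X} (hA : Ample A) (m : ℕ) (U : Cart X) : ∃ n₀ : ℕ, ∀ n ≥ n₀,
      (hz h.var y (U * A ^ n * (A ^ m)⁻¹) : ℝ) - (hz h.var y (1 * A ^ n * (A ^ m)⁻¹) : ℝ) =
        if Algebra.trdeg k (X.kap y) = 1 then (dz h.var y U : ℝ) else 0 := by
  obtain ⟨n, hn⟩ := Cardinal.lt_aleph0.1 (htr.trans (by exact_mod_cast Cardinal.natCast_lt_aleph0 (n := 2)))
  have hn2 : n < 2 := by
    rw [hn] at htr
    exact_mod_cast htr
  rcases Nat.lt_succ_iff_lt_or_eq.1 hn2 with h1 | h1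
  · have h2 : n = 0 := by omega
    rw [h2, Nat.cast_zero] at hn
    refine ⟨0, fun n _ => ?_⟩
    rw [hz_pt h.var hn, hz_pt h.var hn, sub_self, if_neg]
    rw [hn]
    exact zero_ne_one
  · rw [h1, Nat.cast_one] at hn
    obtain ⟨χ, hχ⟩ := hz_cur h.var h.amp hn
    have hd1 : 1 ≤ dz h.var y A := dz_pos h.var h.amp hn (res_ample h.var y _ hA)
    have key : ∀ W : Cart X, ∃ n₀ : ℕ, ∀ n ≥ n₀, (hz h.var y (W * A ^ n * (A ^ m)⁻¹) : ℝ) =
        dz h.var y W + (n - m) * dz h.var y A + χ := by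
      intro W
      refine ⟨m + (-2 * χ - dz h.var y W).toNat + 1, fun n hn' => ?_⟩
      have h3 : dz h.var y (W * A ^ n * (A ^ m)⁻¹) = dz h.var y W + (n - m) * dz h.var y A := by
        rw [dz_mul h.var h.amp hn, dz_mul h.var h.amp hn, dz_inv h.var h.amp hn, dz_pow h.var h.amp hn,
          dz_pow h.var h.amp hn]
        ring
      have h4 := hχ (W * A ^ n * (A ^ m)⁻¹) (by
        rw [h3]
        have h5 : ((n : ℤ) - m) * 1 ≤ ((n : ℤ) - m) * dz h.var y A :=
          mul_le_mul_of_nonneg_left hd1 (by omega)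
        omega)
      rw [h3] at h4
      have h6 : ((hz h.var y (W * A ^ n * (A ^ m)⁻¹) : ℤ) : ℝ) =
          ((dz h.var y W + (n - m) * dz h.var y A + χ : ℤ) : ℝ) := by rw [h4]
      push_cast at h6
      exact h6
    obtain ⟨n1, h3⟩ := key U
    obtain ⟨n2, h4⟩ := key 1
    refine ⟨max n1 n2, fun n hn' => ?_⟩
    rw [h3 n (le_trans (le_max_left _ _) hn'), h4 n (le_trans (le_max_right _ _) hn'), if_pos hn,
      dz_one h.var h.amp hn]
    push_cast
    ring

private theorem n2_chS (hr : RR T l c) (S V G : Cart X) :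
    chS T l S V - chS T l S (V * G⁻¹) = T V G S - T G G S / 2 - T G S S / 2 := by
  unfold chS
  simp only [hr.tri.add, hr.tri.add2, hr.tri.inv, hr.tri.inv2]
  rw [hr.tri.s12 G V S]
  ring

/-- the step of the surface `z` along `G`, with the curve `y` prescribed -/
private theorem dcy_step [CharZero k] [IsAlgClosed k] (h : Hyp X) {z : X.P} {G : Cart X} {Z : Set X.P}
    (hG : HasS h.var z G Z) {y : X.P} (hy : y ∈ Z) {A : Cart X} (hA : Ample A) :
    ∃ (m : ℕ) (x : Fin m → X.P) (cc : Fin m → ℕ), (∀ i, x i ∈ Z) ∧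
      ∀ W : Cart X, ∃ n₀ : ℕ, ∀ n ≥ n₀, (hz h.var z (W * A ^ n) : ℝ) = (hz h.var z (W * A ^ n * G⁻¹) : ℝ) +
        (hz h.var y (W * A ^ n) : ℝ) + ∑ i, (hz h.var (x i) (W * A ^ n * (A ^ cc i)⁻¹) : ℝ) := by
  obtain ⟨s, hs0, hs1, rfl⟩ := hG
  obtain ⟨hzy, hn⟩ := hy
  have hX := h.var
  have hAz := res_ample hX z _ hA
  obtain ⟨hN, hF, hFZ, hS⟩ := Pool.Agent.H20.TK.serP k _ (subM hX z) (isVar_sub hX z) ⟨_, gen_sub hX z⟩ _ hAz
  have hE : Effective (prin (subM hX z) s hs0 * resD hX z G) := fun x => by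
    have := hs1 x
    rw [pow_one] at this
    exact this
  obtain ⟨r, ζ, c, h2, h3⟩ := dcy_chain (isVar_sub hX z) ⟨_, gen_sub hX z⟩ (resD hX z A) hAz hN hF hFZ hS _ hE
    ⟨y, hzy⟩ hn
  have key : ∀ (W : Cart X) (i : Fin r), h0 (resD (isVar_sub hX z) (ζ i) (resD hX z W * (resD hX z A ^ c i)⁻¹)) 1 =
      hz hX (ζ i).1 (W * (A ^ c i)⁻¹) := fun W i => by
    rw [← map_pow, ← map_inv, ← map_mul, hz_sub]
  have key2 : ∀ W : Cart X, h0 (resD hX z W * (prin (subM hX z) s hs0 * resD hX z G)⁻¹) 1 =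
      hz hX z (W * G⁻¹) := fun W => by
    rw [Pool.Agent.H20.TK.h0_prin_inv, ← map_inv, ← map_mul]
    rfl
  refine ⟨r, fun i => (ζ i).1, c, fun i => ⟨(ζ i).2, h3 i⟩, fun W => ?_⟩
  obtain ⟨n₁, hn₁⟩ := h2 (resD hX z W)
  obtain ⟨n₂, hn₂⟩ := hS ⟨y, hzy⟩ (resD hX z W)
  refine ⟨max n₁ n₂, fun n hn' => ?_⟩
  have h4 := hn₁ n (le_trans (le_max_left _ _) hn')
  have h5 := dcy_hv (isVar_sub hX z) ⟨y, hzy⟩ _ (hF _) (hn₂ n (le_trans (le_max_right _ _) hn'))
  have h6 : resD hX z W * resD hX z A ^ n = resD hX z (W * A ^ n) := by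
    rw [← map_pow, ← map_mul]
  rw [h6, key2] at h4
  simp only [key] at h4
  rw [h6, hz_sub] at h5
  rw [h4] at h5
  have h7 : hz hX z (W * A ^ n) = hz hX z (W * A ^ n * G⁻¹) + hz hX y (W * A ^ n) +
      ∑ i, hz hX (ζ i).1 (W * A ^ n * (A ^ c i)⁻¹) := by
    have h8 : hz hX z (W * A ^ n) = hz hX z (W * A ^ n * G⁻¹) +
        ∑ i, hz hX (ζ i).1 (W * A ^ n * (A ^ c i)⁻¹) + hz hX y (W * A ^ n) := h5
    omega
  exact_mod_cast h7

theorem T_decy [CharZero k] [IsAlgClosed k] [T0Space X.P] (h : Hyp X) (hr : RR T l c) {z : X.P} {S : Cart X}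
    (htr : Algebra.trdeg k (X.kap z) = 2) (hS : SPr X z S) {G : Cart X} {Z : Set X.P} (hG : HasS h.var z G Z)
    {y : X.P} (hy : y ∈ Z) (hyt : Algebra.trdeg k (X.kap y) = 1) :
    ∃ (m : ℕ) (x : Fin m → X.P), (∀ i, x i ∈ Z ∧ Algebra.trdeg k (X.kap (x i)) = 1) ∧
      ∀ U, T U G S = (dz h.var y U : ℝ) + ∑ i, (dz h.var (x i) U : ℝ) := by
  classical
  obtain ⟨A, hA⟩ := h.amp
  obtain ⟨m, x, cc, hx, hst⟩ := dcy_step h hG hy hA
  have main : ∀ U, T U G S = (dz h.var y U : ℝ) +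
      ∑ i, if Algebra.trdeg k (X.kap (x i)) = 1 then (dz h.var (x i) U : ℝ) else 0 := by
    intro U
    obtain ⟨n1, h1⟩ := hst U
    obtain ⟨n2, h2⟩ := hst 1
    obtain ⟨n3, h3⟩ := Pool.Agent.H20.TQ.srf_ev h hr hS U A hA
    obtain ⟨n4, h4⟩ := Pool.Agent.H20.TQ.srf_ev h hr hS 1 A hA
    obtain ⟨n5, h5⟩ := Pool.Agent.H20.TQ.srf_ev h hr hS (U * G⁻¹) A hA
    obtain ⟨n6, h6⟩ := Pool.Agent.H20.TQ.srf_ev h hr hS (1 * G⁻¹) A hA
    have h7 := fun i => n2_piece h (n2_tr h.var htr hG (hx i)) hA (cc i) U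
    choose n7 h7 using h7
    obtain ⟨n8, h8⟩ := n2_piece h (n2_tr h.var htr hG hy) hA 0 U
    obtain ⟨n, hn⟩ : ∃ n, n = n1 + n2 + n3 + n4 + n5 + n6 + n8 + Finset.univ.sup n7 := ⟨_, rfl⟩
    have a1 := h1 n (by omega)
    have a2 := h2 n (by omega)
    have a3 := h3 n (by omega)
    have a4 := h4 n (by omega)
    have a5 := h5 n (by omega)
    have a6 := h6 n (by omega)
    have a8 := h8 n (by omega)
    have a7 : ∀ i, _ := fun i => h7 i n (by
      have := Finset.le_sup (f := n7) (Finset.mem_univ i)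
      omega)
    rw [pow_zero, inv_one, mul_one, mul_one, if_pos hyt] at a8
    rw [mul_right_comm U G⁻¹] at a5
    rw [mul_right_comm 1 G⁻¹] at a6
    have b1 := n2_chS hr S (U * A ^ n) G
    have b2 := n2_chS hr S (1 * A ^ n) G
    have b3 : T (U * A ^ n) G S = T U G S + T (A ^ n) G S := hr.tri.add _ _ _ _
    have b4 : T (1 * A ^ n) G S = T (A ^ n) G S := by rw [one_mul]
    have b5 := Finset.sum_congr rfl fun i (_ : i ∈ Finset.univ) => a7 i
    rw [← b5, Finset.sum_sub_distrib]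
    change (hz h.var z (U * A ^ n) : ℝ) = _ at a3
    change (hz h.var z (1 * A ^ n) : ℝ) = _ at a4
    change (hz h.var z (U * A ^ n * G⁻¹) : ℝ) = _ at a5
    change (hz h.var z (1 * A ^ n * G⁻¹) : ℝ) = _ at a6
    linarith
  refine ⟨Fintype.card {i : Fin m // Algebra.trdeg k (X.kap (x i)) = 1},
    fun j => x ((Fintype.equivFin {i : Fin m // Algebra.trdeg k (X.kap (x i)) = 1}).symm j).1,
    fun j => ⟨hx _, ((Fintype.equivFin {i : Fin m // Algebra.trdeg k (X.kap (x i)) = 1}).symm j).2⟩, fun U => ?_⟩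
  rw [main U, ← Finset.sum_filter,
    Equiv.sum_comp (Fintype.equivFin {i : Fin m // Algebra.trdeg k (X.kap (x i)) = 1}).symm
      (fun i : {i : Fin m // Algebra.trdeg k (X.kap (x i)) = 1} => (dz h.var (x i.1) U : ℝ))]
  congr 1
  exact Finset.sum_subtype _ (fun i => by simp) _

end Pool.Agent.H89.RT
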