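import Pool.Agent.H20.TP.Srf
import Pool.Agent.H41.TW.Crv
import Pool.Agent.H24.VP.T4

/-!
# [H89 RT Tz] THEOREM R (MP_e49dc9_ag): lower bound for the number of sections on a prime divisor

`crv_z`: the generic curve in the linear system of `A ^ m` on the surface `z` (`exists_curve`).
`tz`: `chS T l S W ≤ hz z W` if `T(A,S,S) < T(W,A,S)` (as `t4` of H24/VP).
-/

set_option autoImplicit false

namespace Pool.Agent.H89.RT

open Pool.Agent.H54.RV Pool.Agent.H83.TU Pool.Agent.H83.TK Pool.Agent.H20.TD Pool.Agent.H20.TP Pool.Agent.H41.TK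
open Pool.Agent.H24.VP (RR chS)

variable {k K : Type} [Field k] [Field K] [Algebra k K] {X : Mod k K}
  {T : Cart X → Cart X → Cart X → ℝ} {l : Cart X → ℝ} {c : ℝ} {z : X.P} {S A : Cart X}

/-- two linear functions which agree for large `n` -/
private theorem lin_eq' {a b a' b' : ℝ} {N : ℕ} (h : ∀ n : ℕ, N ≤ n → a + n * b = a' + n * b') :
    a = a' ∧ b = b' := by
  have h1 := h N le_rfl
  have h2 := h (N + 1) (Nat.le_succ N)
  push_cast at h2
  have h3 : b = b' := by linarith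
  refine ⟨?_, h3⟩
  rw [h3] at h1
  linarith

/-- the difference of `chS` along `A ^ m` -/
private theorem chS_d (hr : RR T l c) (S A W : Cart X) (m : ℕ) :
    chS T l S W - chS T l S (W * (A ^ m)⁻¹) =
      m * T W A S - (m ^ 2 * T A A S + m * T A S S) / 2 := by
  unfold chS
  simp only [hr.tri.add, hr.tri.add2, hr.tri.inv, hr.tri.inv2, hr.tri.pow, hr.tri.pow2]
  rw [hr.tri.s12 A W S]
  ring

/-- the generic curve in the linear system of `A ^ m` on the surface `z` -/
theorem crv_z [CharZero k] [T0Space X.P] (h : Hyp X) (hr : RR T l c)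
    (htr : Algebra.trdeg k (X.kap z) = 2) (hS : SPr X z S) (hA : Ample A) :
    ∃ (m : ℕ) (k₂ K₂ : Type) (_ : Field k₂) (_ : Field K₂) (_ : Algebra k₂ K₂) (_ : CharZero k₂)
      (C : Mod k₂ K₂) (φ : Cart X →* Cart C), 1 ≤ m ∧ Crv C ∧ (∀ D, Ample D → Ample (φ D)) ∧
        (∀ W : Cart X, hz h.var z W ≤ hz h.var z (W * (A ^ m)⁻¹) + h0 (φ W) 1) ∧
        (∀ W : Cart X, (dg (φ W) : ℝ) = m * T W A S) ∧
        ((Pool.Agent.H41.TK.chi C : ℤ) : ℝ) = -((m ^ 2 * T A A S + m * T A S S) / 2) := by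
  obtain ⟨m, k₂, K₂, i1, i2, i3, i4, C, φ, hm, hC, hφ, hle, heq⟩ := Pool.Agent.H41.TW.exists_curve h.var z htr hA
  obtain ⟨e, he⟩ : ∃ e : ℝ, e = (Pool.Agent.H41.TK.chi C : ℤ) := ⟨_, rfl⟩
  have hm1 : (1 : ℝ) ≤ m := by exact_mod_cast hm
  have hdS : 0 < dg (φ A) := dg_ample hC _ (hφ A hA)
  have key : ∀ W : Cart X, m * T W A S - (m ^ 2 * T A A S + m * T A S S) / 2 = (dg (φ W) : ℝ) + e ∧
      m * T A A S = (dg (φ A) : ℝ) := by
    intro W
    obtain ⟨n1, h1⟩ := ev_srf h hr hS W A hA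
    obtain ⟨n2, h2⟩ := ev_srf h hr hS (W * (A ^ m)⁻¹) A hA
    obtain ⟨n3, h3⟩ := heq W A hA
    obtain ⟨n4, h4⟩ : ∃ n4 : ℕ, ∀ n : ℕ, n4 ≤ n →
        - 2 * Pool.Agent.H41.TK.chi C < dg (φ W) + n * dg (φ A) := by
      refine ⟨(- 2 * Pool.Agent.H41.TK.chi C - dg (φ W) + 1).toNat, fun n hn => ?_⟩
      have h5 : (- 2 * Pool.Agent.H41.TK.chi C - dg (φ W) + 1) ≤ n := Int.toNat_le.1 hn
      have h6 : (n : ℤ) * 1 ≤ n * dg (φ A) :=
        mul_le_mul_of_nonneg_left (by omega) (Int.natCast_nonneg _)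
      omega
    refine lin_eq' (N := max (max n1 n2) (max n3 n4)) fun n hn => ?_
    have a1 := h1 n (le_trans ((le_max_left _ _).trans (le_max_left _ _)) hn)
    have a2 := h2 n (le_trans ((le_max_right _ _).trans (le_max_left _ _)) hn)
    have a3 := h3 n (le_trans ((le_max_left _ _).trans (le_max_right _ _)) hn)
    have a4 := h4 n (le_trans ((le_max_right _ _).trans (le_max_right _ _)) hn)
    have a5 : dg (φ (W * A ^ n)) = dg (φ W) + n * dg (φ A) := by
      rw [map_mul, map_pow, dg_mul hC, dg_pow hC]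
    have a6 := h0_eq hC (φ (W * A ^ n)) (by rw [a5]; exact a4)
    rw [a5] at a6
    have a7 : (h0 (φ (W * A ^ n)) 1 : ℝ) = dg (φ W) + n * dg (φ A) + e := by
      rw [he]
      exact_mod_cast a6
    have a8 : (hz h.var z (W * A ^ n) : ℝ) =
        hz h.var z (W * (A ^ m)⁻¹ * A ^ n) + h0 (φ (W * A ^ n)) 1 := by
      rw [mul_right_comm W]
      unfold hz
      exact_mod_cast a3
    simp only at a1 a2
    rw [a1, a2, a7, mul_right_comm W] at a8
    have a9 := chS_d hr S A (W * A ^ n) m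
    rw [hr.tri.add, hr.tri.pow] at a9
    linarith
  obtain ⟨k1, k2⟩ := key 1
  have k0 : (dg (φ 1) : ℝ) = 0 := by
    rw [map_one, dg_one]
    norm_num
  rw [k0, hr.tri.one] at k1
  have k4 : e = -((m ^ 2 * T A A S + m * T A S S) / 2) := by linarith
  refine ⟨m, k₂, K₂, i1, i2, i3, i4, C, φ, hm, hC, hφ, hle, fun W => ?_, ?_⟩
  · have h1 := (key W).1
    rw [k4] at h1
    linarith
  · rw [← he]
    exact k4

/-- the lower bound for the number of sections on a prime divisor -/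
theorem tz [CharZero k] [T0Space X.P] (h : Hyp X) (hr : RR T l c)
    (htr : Algebra.trdeg k (X.kap z) = 2) (hS : SPr X z S) (hA : Ample A) (W : Cart X)
    (hW : T A S S < T W A S) : chS T l S W ≤ hz h.var z W := by
  obtain ⟨m, k₂, K₂, i1, i2, i3, i4, C, φ, hm, hC, hφ, hle, hdg, hch⟩ := crv_z h hr htr hS hA
  have hm1 : (1 : ℝ) ≤ m := by exact_mod_cast hm
  have hT : 0 < T A A S := pos_srf h hr htr hS hA hA
  obtain ⟨e, he⟩ : ∃ e : ℝ, e = ((Pool.Agent.H41.TK.chi C : ℤ) : ℝ) := ⟨_, rfl⟩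
  have ht := hr.tri
  obtain ⟨V, hV⟩ : ∃ V : ℕ → Cart X, V = fun j => W * A ^ (m * j) := ⟨_, rfl⟩
  have step : ∀ j : ℕ, (hz h.var z (V (j + 1)) : ℝ) ≤
      hz h.var z (V j) + (chS T l S (V (j + 1)) - chS T l S (V j)) := by
    intro j
    have b1 := hle (V (j + 1))
    have b2 : V (j + 1) * (A ^ m)⁻¹ = V j := by
      rw [hV]
      show W * A ^ (m * (j + 1)) * (A ^ m)⁻¹ = W * A ^ (m * j)
      rw [mul_add, mul_one, pow_add, ← mul_assoc, mul_inv_cancel_right]
    rw [b2] at b1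
    have b3 := hdg (V (j + 1))
    have b4 : T (V (j + 1)) A S = T W A S + m * (j + 1) * T A A S := by
      rw [hV]
      show T (W * A ^ (m * (j + 1))) A S = _
      rw [ht.add, ht.pow]
      push_cast
      ring
    have hj : (0 : ℝ) ≤ j := Nat.cast_nonneg j
    have b6 : -2 * e < (dg (φ (V (j + 1))) : ℝ) := by
      rw [b3, b4, he, hch]
      have c2 : 0 < m * (T W A S - T A S S) := mul_pos (by linarith) (by linarith)
      have c3 : 0 ≤ m * m * (j : ℝ) * T A A S :=
        mul_nonneg (mul_nonneg (mul_nonneg (by linarith) (by linarith)) hj) hT.le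
      nlinarith
    have b7 : -2 * Pool.Agent.H41.TK.chi C < dg (φ (V (j + 1))) := by
      rw [he] at b6
      exact_mod_cast b6
    have b8 := h0_eq hC _ b7
    have b9 : (h0 (φ (V (j + 1))) 1 : ℝ) = dg (φ (V (j + 1))) + e := by
      rw [he]
      exact_mod_cast b8
    have b10 : (hz h.var z (V (j + 1)) : ℝ) ≤ hz h.var z (V j) + h0 (φ (V (j + 1))) 1 := by
      exact_mod_cast b1
    have b12 := chS_d hr S A (V (j + 1)) m
    rw [b2] at b12
    rw [b9, b3, he, hch] at b10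
    rw [b12]
    linarith
  have all : ∀ J : ℕ, (hz h.var z (V J) : ℝ) ≤ hz h.var z (V 0) + (chS T l S (V J) - chS T l S (V 0)) := by
    intro J
    induction J with
    | zero => simp
    | succ J ih =>
      have := step J
      linarith
  obtain ⟨n1, h1⟩ := ev_srf h hr hS W A hA
  have h2 := h1 (m * n1) (by nlinarith)
  have h3 := all n1
  have h4 : V n1 = W * A ^ (m * n1) := by rw [hV]
  simp only at h2
  rw [← h4] at h2
  have h5 : V 0 = W := by
    rw [hV]
    show W * A ^ (m * 0) = W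
    rw [mul_zero, pow_zero, mul_one]
  rw [h5] at h3
  linarith

end Pool.Agent.H89.RT
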